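import Pool.Agent.H59.ER3.DE

/-!
# MP_816b90_co: row D3 of the board er3
-/

set_option autoImplicit false

namespace Pool.Agent.H59.ER3

open Pool.Agent.H48.ER Pool.Agent.H52.ER2 Pool.Agent.H66.ER2 Pool.Agent.H20.ER3

/-- a prism in index form, only ordered pairs have to be checked -/
theorem PI_of_lt {W : Type} {M : SimpleGraph W} {n : Fin 3 → ℕ} {g : Fin 3 → ℕ → W}
    (pos : ∀ i, 1 ≤ n i)
    (H1 : ∀ i a b, a < b → b ≤ n i → g i a ≠ g i b ∧ (M.Adj (g i a) (g i b) ↔ a + 1 = b))
    (H2 : ∀ i j a b, i < j → a ≤ n i → b ≤ n j → g i a ≠ g j b ∧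
      (M.Adj (g i a) (g j b) ↔ (a = 0 ∧ b = 0) ∨ (a = n i ∧ b = n j))) : PI M n g where
  pos := pos
  inj := by
    intro i j a b ha hb e
    rcases lt_trichotomy i j with h | h | h
    · exact absurd e (H2 i j a b h ha hb).1
    · subst h
      rcases lt_trichotomy a b with h | h | h
      · exact absurd e (H1 i a b h hb).1
      · exact ⟨rfl, h⟩
      · exact absurd e.symm (H1 i b a h ha).1
    · exact absurd e.symm (H2 j i b a h hb ha).1
  adj := by
    intro i j a b ha hb
    rcases lt_trichotomy i j with h | h | h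
    · rw [(H2 i j a b h ha hb).2]
      constructor
      · intro e
        exact Or.inr ⟨h.ne, e⟩
      · rintro (⟨e, _⟩ | ⟨_, e⟩)
        · exact absurd e h.ne
        · exact e
    · subst h
      rcases lt_trichotomy a b with h | h | h
      · rw [(H1 i a b h hb).2]
        constructor
        · intro e
          exact Or.inl ⟨rfl, Or.inl e⟩
        · rintro (⟨_, e | e⟩ | ⟨e, _⟩)
          · exact e
          · omega
          · exact absurd rfl e
      · subst h
        constructor
        · intro e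
          exact absurd e (M.loopless.irrefl _)
        · rintro (⟨_, e | e⟩ | ⟨e, _⟩)
          · omega
          · omega
          · exact absurd rfl e
      · rw [SimpleGraph.adj_comm, (H1 i b a h ha).2]
        constructor
        · intro e
          exact Or.inl ⟨rfl, Or.inr e⟩
        · rintro (⟨_, e | e⟩ | ⟨e, _⟩)
          · omega
          · exact e
          · exact absurd rfl e
    · rw [SimpleGraph.adj_comm, (H2 j i b a h hb ha).2]
      constructor
      · rintro (⟨e1, e2⟩ | ⟨e1, e2⟩)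
        · exact Or.inr ⟨h.ne', Or.inl ⟨e2, e1⟩⟩
        · exact Or.inr ⟨h.ne', Or.inr ⟨e2, e1⟩⟩
      · rintro (⟨e, _⟩ | ⟨_, ⟨e1, e2⟩ | ⟨e1, e2⟩⟩)
        · exact absurd e h.ne'
        · exact Or.inl ⟨e2, e1⟩
        · exact Or.inr ⟨e2, e1⟩

/-- adjacency in the contraction, away from the pair -/
theorem ctr_off {V : Type} {G : SimpleGraph V} {p q u v : V} (hu : u ≠ p) (hu' : u ≠ q)
    (hv : v ≠ p) (hv' : v ≠ q) : (ctr G p q).Adj u v ↔ G.Adj u v := by
  constructor
  · rintro ⟨_, _, _, h | ⟨h, _⟩ | ⟨h, _⟩⟩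
    · exact h
    · exact absurd h hu
    · exact absurd h hv
  · intro h
    exact ⟨h.ne, hu', hv', Or.inl h⟩

/-- neighbours of the contracted vertex -/
theorem ctr_of {V : Type} {G : SimpleGraph V} {p q z u : V} (hpq : p ≠ q) (hz : z = p ∨ z = q)
    (hu : u ≠ p) (hu' : u ≠ q) (h : G.Adj z u) : (ctr G p q).Adj p u := by
  rcases hz with rfl | rfl
  · exact ⟨hu.symm, hpq, hu', Or.inl h⟩
  · exact ⟨hu.symm, hpq, hu', Or.inr (Or.inl ⟨rfl, h⟩)⟩

/-- the new rung -/
noncomputable def hD3 {V : Type} (S : Set V) (z z' : V) (g : ℕ → V) (k : ℕ) (x : ℕ) : V ⊕ Set V :=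
  if x < k then Sum.inl (g x) else if x = k then Sum.inl z else if x = k + 1 then Sum.inr S else
    if x = k + 2 then Sum.inl z' else Sum.inl (g (x - 2))

section

variable {V : Type} {S : Set V} {z z' : V} {g : ℕ → V} {k x : ℕ}

theorem hD3_A (h : x < k) : hD3 S z z' g k x = Sum.inl (g x) := by simp [hD3, h]

theorem hD3_B : hD3 S z z' g k k = Sum.inl z := by simp [hD3]

theorem hD3_C : hD3 S z z' g k (k + 1) = Sum.inr S := by simp [hD3]

theorem hD3_D : hD3 S z z' g k (k + 2) = Sum.inl z' := by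
  have h1 : ¬ k + 2 < k := by omega
  simp [hD3]

theorem hD3_E (h : k + 3 ≤ x) : hD3 S z z' g k x = Sum.inl (g (x - 2)) := by
  have h1 : ¬ x < k := by omega
  have h2 : ¬ x = k := by omega
  have h3 : ¬ x = k + 1 := by omega
  have h4 : ¬ x = k + 2 := by omega
  simp [hD3, h1, h2, h3, h4]

theorem hD3_cases (S : Set V) (z z' : V) (g : ℕ → V) (k x : ℕ) :
    (x < k ∧ hD3 S z z' g k x = Sum.inl (g x)) ∨ (x = k ∧ hD3 S z z' g k x = Sum.inl z) ∨
      (x = k + 1 ∧ hD3 S z z' g k x = Sum.inr S) ∨ (x = k + 2 ∧ hD3 S z z' g k x = Sum.inl z') ∨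
      (k + 3 ≤ x ∧ hD3 S z z' g k x = Sum.inl (g (x - 2))) := by
  rcases lt_trichotomy x k with h | h | h
  · exact Or.inl ⟨h, hD3_A h⟩
  · subst h; exact Or.inr (Or.inl ⟨rfl, hD3_B⟩)
  · right; right
    by_cases h1 : x = k + 1
    · subst h1; exact Or.inl ⟨rfl, hD3_C⟩
    · by_cases h2 : x = k + 2
      · subst h2; exact Or.inr (Or.inl ⟨rfl, hD3_D⟩)
      · exact Or.inr (Or.inr ⟨by omega, hD3_E (by omega)⟩)

end

/-- the case `z ~ f`, `z' ~ f'` -/
theorem d3_core {V : Type} {G : SimpleGraph V} {R S : Set V} {p q z z' : V} {n : Fin 3 → ℕ}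
    {g : Fin 3 → ℕ → V} {k : ℕ} (hE : EvP G p q) (hS : Star G R S) (hP : PMs True G S)
    (hzz : (z = p ∧ z' = q) ∨ (z = q ∧ z' = p)) (hp : p ∉ R) (hq : q ∉ R)
    (hpi : PI (ctr G p q) n g) (hodd : ∀ i, Odd (n i)) (hk : 0 < k) (hkn : k < n 0)
    (hgk : g 0 k = p) (hR : ∀ i l, l ≤ n i → ¬ (i = 0 ∧ l = k) → g i l ∈ R)
    (hf : G.Adj z (g 0 (k - 1))) (hf' : G.Adj z' (g 0 (k + 1))) (nf' : ¬ G.Adj z (g 0 (k + 1)))
    (nf : ¬ G.Adj z' (g 0 (k - 1))) : False := by
  classical
  obtain ⟨hpq, hna, _⟩ := hE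
  have hz : z = p ∨ z = q := by rcases hzz with ⟨h, _⟩ | ⟨h, _⟩ <;> [left; right] <;> exact h
  have hz' : z' = p ∨ z' = q := by rcases hzz with ⟨_, h⟩ | ⟨_, h⟩ <;> [right; left] <;> exact h
  have hzR : z ∉ R := by rcases hz with rfl | rfl <;> assumption
  have hzR' : z' ∉ R := by rcases hz' with rfl | rfl <;> assumption
  have hzne : z ≠ z' := by
    rcases hzz with ⟨rfl, rfl⟩ | ⟨rfl, rfl⟩
    · exact hpq
    · exact hpq.symm
  have hzna : ¬ G.Adj z z' := by
    rcases hzz with ⟨rfl, rfl⟩ | ⟨rfl, rfl⟩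
    · exact hna
    · exact fun e => hna e.symm
  have Rne : ∀ v ∈ R, v ≠ p ∧ v ≠ q := fun v hv =>
    ⟨fun e => hp (e ▸ hv), fun e => hq (e ▸ hv)⟩
  have hfR : g 0 (k - 1) ∈ R := hR 0 (k - 1) (by omega) (by omega)
  have hfR' : g 0 (k + 1) ∈ R := hR 0 (k + 1) (by omega) (by omega)
  have hzS : z ∉ S := fun h => hS.ne _ hfR _ h hf.symm
  have hzS' : z' ∉ S := fun h => hS.ne _ hfR' _ h hf'.symm
  have seesz : Sees G S S z :=
    ⟨hzS, Set.Subset.rfl, hS.cn, (hS.nb z hzR hzS).2 ⟨_, hfR, hf⟩⟩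
  have seesz' : Sees G S S z' :=
    ⟨hzS', Set.Subset.rfl, hS.cn, (hS.nb z' hzR' hzS').2 ⟨_, hfR', hf'⟩⟩
  have nsees : ∀ v ∈ R, ¬ Sees G S S v := by
    rintro v hv ⟨_, _, _, s, hs, hvs⟩
    exact hS.ne v hv s hs hvs
  -- neighbours of z, z' on the prism
  have znb : ∀ w, (w = z ∨ w = z') → ∀ i l, l ≤ n i → ¬ (i = 0 ∧ l = k) → G.Adj w (g i l) →
      i = 0 ∧ (l = k - 1 ∨ l = k + 1) := by
    intro w hw i l hl hne hadj
    have hwpq : w = p ∨ w = q := by
      rcases hw with rfl | rfl
      · exact hz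
      · exact hz'
    have hr := Rne _ (hR i l hl hne)
    have h1 : (ctr G p q).Adj (g 0 k) (g i l) := by
      rw [hgk]; exact ctr_of hpq hwpq hr.1 hr.2 hadj
    rw [hpi.adj 0 i k l (by omega) hl] at h1
    rcases h1 with ⟨h1, h2⟩ | ⟨_, h2⟩
    · exact ⟨h1.symm, by omega⟩
    · omega
  have hoff : ∀ i j a b, a ≤ n i → b ≤ n j → ¬ (i = 0 ∧ a = k) → ¬ (j = 0 ∧ b = k) →
      (G.Adj (g i a) (g j b) ↔ (i = j ∧ (a + 1 = b ∨ b + 1 = a)) ∨
        (i ≠ j ∧ ((a = 0 ∧ b = 0) ∨ (a = n i ∧ b = n j)))) := by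
    intro i j a b ha hb h1 h2
    have r1 := Rne _ (hR i a ha h1)
    have r2 := Rne _ (hR j b hb h2)
    rw [← ctr_off r1.1 r1.2 r2.1 r2.2]
    exact hpi.adj i j a b ha hb
  let N : Fin 3 → ℕ := Function.update n 0 (n 0 + 2)
  let g0 : Fin 3 → ℕ → V ⊕ Set V := fun i l => Sum.inl (g i l)
  let g' : Fin 3 → ℕ → V ⊕ Set V := Function.update g0 0 (hD3 S z z' (g 0) k)
  have N0 : N 0 = n 0 + 2 := by simp [N]
  have Nj : ∀ j, j ≠ 0 → N j = n j := fun j hj => by simp [N, hj]
  have G0 : ∀ x, g' 0 x = hD3 S z z' (g 0) k x := fun x => by simp [g']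
  have Gj : ∀ j x, j ≠ 0 → g' j x = Sum.inl (g j x) := fun j x hj => by simp [g', g0, hj]
  have inlne : ∀ a b : V, a ≠ b → (Sum.inl a : V ⊕ Set V) ≠ Sum.inl b := fun a b h e =>
    h (Sum.inl.inj e)
  have hnew : PI (MG G S) N g' := by
    refine PI_of_lt ?_ ?_ ?_
    · intro i
      by_cases hi : i = 0
      · subst hi; rw [N0]; omega
      · rw [Nj i hi]; exact hpi.pos i
    · intro i a b hab hb
      by_cases hi : i = 0
      · subst hi
        rw [N0] at hb
        rw [G0, G0]
        rcases hD3_cases S z z' (g 0) k a with ⟨ca, ea⟩ | ⟨ca, ea⟩ | ⟨ca, ea⟩ | ⟨ca, ea⟩ | ⟨ca, ea⟩ <;>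
        rcases hD3_cases S z z' (g 0) k b with ⟨cb, eb⟩ | ⟨cb, eb⟩ | ⟨cb, eb⟩ | ⟨cb, eb⟩ | ⟨cb, eb⟩ <;>
        rw [ea, eb] <;> try (exfalso; omega)
        · -- A A
          refine ⟨inlne _ _ fun e => ?_, ?_⟩
          · have := (hpi.inj 0 0 a b (by omega) (by omega) e).2; omega
          · rw [mg_ll, hoff 0 0 a b (by omega) (by omega) (by omega) (by omega)]
            constructor
            · rintro (⟨_, h⟩ | ⟨h, _⟩)
              · omega
              · exact absurd rfl h
            · intro h; exact Or.inl ⟨rfl, Or.inl h⟩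
        · -- A B
          have hra := hR 0 a (by omega) (by omega)
          refine ⟨inlne _ _ fun e => hzR (e ▸ hra), ?_⟩
          rw [mg_ll]
          constructor
          · intro h
            have := znb z (Or.inl rfl) 0 a (by omega) (by omega) h.symm
            omega
          · intro h
            have e : a = k - 1 := by omega
            rw [e]; exact hf.symm
        · -- A C
          have hra := hR 0 a (by omega) (by omega)
          refine ⟨by simp, ?_⟩
          rw [mg_lr]
          exact ⟨fun h => absurd h (nsees _ hra), fun h => by omega⟩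
        · -- A D
          have hra := hR 0 a (by omega) (by omega)
          refine ⟨inlne _ _ fun e => hzR' (e ▸ hra), ?_⟩
          rw [mg_ll]
          constructor
          · intro h
            have h1 := znb z' (Or.inr rfl) 0 a (by omega) (by omega) h.symm
            have e : a = k - 1 := by omega
            rw [e] at h
            exact absurd h.symm nf
          · intro h; omega
        · -- A E
          refine ⟨inlne _ _ fun e => ?_, ?_⟩
          · have := (hpi.inj 0 0 a (b - 2) (by omega) (by omega) e).2; omega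
          · rw [mg_ll, hoff 0 0 a (b - 2) (by omega) (by omega) (by omega) (by omega)]
            constructor
            · rintro (⟨_, h⟩ | ⟨h, _⟩)
              · omega
              · exact absurd rfl h
            · intro h; omega
        · -- B C
          refine ⟨by simp, ?_⟩
          rw [mg_lr]
          exact ⟨fun _ => by omega, fun _ => seesz⟩
        · -- B D
          refine ⟨inlne _ _ hzne, ?_⟩
          rw [mg_ll]
          exact ⟨fun h => absurd h hzna, fun h => by omega⟩
        · -- B E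
          have hra := hR 0 (b - 2) (by omega) (by omega)
          refine ⟨inlne _ _ fun e => hzR (e ▸ hra), ?_⟩
          rw [mg_ll]
          constructor
          · intro h
            have h1 := znb z (Or.inl rfl) 0 (b - 2) (by omega) (by omega) h
            have e : b - 2 = k + 1 := by omega
            rw [e] at h
            exact absurd h nf'
          · intro h; omega
        · -- C D
          refine ⟨by simp, ?_⟩
          rw [mg_rl]
          exact ⟨fun _ => by omega, fun _ => seesz'⟩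
        · -- C E
          have hra := hR 0 (b - 2) (by omega) (by omega)
          refine ⟨by simp, ?_⟩
          rw [mg_rl]
          exact ⟨fun h => absurd h (nsees _ hra), fun h => by omega⟩
        · -- D E
          have hra := hR 0 (b - 2) (by omega) (by omega)
          refine ⟨inlne _ _ fun e => hzR' (e ▸ hra), ?_⟩
          rw [mg_ll]
          constructor
          · intro h
            have h1 := znb z' (Or.inr rfl) 0 (b - 2) (by omega) (by omega) h
            omega
          · intro h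
            have e : b - 2 = k + 1 := by omega
            rw [e]; exact hf'
        · -- E E
          refine ⟨inlne _ _ fun e => ?_, ?_⟩
          · have := (hpi.inj 0 0 (a - 2) (b - 2) (by omega) (by omega) e).2; omega
          · rw [mg_ll, hoff 0 0 (a - 2) (b - 2) (by omega) (by omega) (by omega) (by omega)]
            constructor
            · rintro (⟨_, h⟩ | ⟨h, _⟩)
              · omega
              · exact absurd rfl h
            · intro h; exact Or.inl ⟨rfl, Or.inl (by omega)⟩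
      · rw [Nj i hi] at hb
        rw [Gj i a hi, Gj i b hi, mg_ll]
        refine ⟨inlne _ _ fun e => ?_, ?_⟩
        · have := (hpi.inj i i a b (by omega) hb e).2; omega
        · rw [hoff i i a b (by omega) hb (fun h => hi h.1) (fun h => hi h.1)]
          constructor
          · rintro (⟨_, h⟩ | ⟨h, _⟩)
            · omega
            · exact absurd rfl h
          · intro h; exact Or.inl ⟨rfl, Or.inl h⟩
    · intro i j a b hij ha hb
      have hj : j ≠ 0 := fun e => by subst e; exact absurd hij (by simp)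
      rw [Nj j hj] at hb
      rw [Gj j b hj, Nj j hj]
      have hrb := hR j b hb (fun h => hj h.1)
      by_cases hi : i = 0
      · subst hi
        rw [N0] at ha ⊢
        rw [G0]
        rcases hD3_cases S z z' (g 0) k a with ⟨ca, ea⟩ | ⟨ca, ea⟩ | ⟨ca, ea⟩ | ⟨ca, ea⟩ | ⟨ca, ea⟩ <;>
        rw [ea]
        · refine ⟨inlne _ _ fun e => hj ((hpi.inj 0 j a b (by omega) hb e).1).symm, ?_⟩
          rw [mg_ll, hoff 0 j a b (by omega) hb (by omega) (fun h => hj h.1)]
          constructor
          · rintro (⟨h, _⟩ | ⟨_, h⟩)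
            · exact absurd h.symm hj
            · omega
          · intro h; exact Or.inr ⟨hj.symm, by omega⟩
        · refine ⟨inlne _ _ fun e => hzR (e ▸ hrb), ?_⟩
          rw [mg_ll]
          constructor
          · intro h
            exact absurd (znb z (Or.inl rfl) j b hb (fun h => hj h.1) h).1 hj
          · intro h; omega
        · refine ⟨by simp, ?_⟩
          rw [mg_rl]
          exact ⟨fun h => absurd h (nsees _ hrb), fun h => by omega⟩
        · refine ⟨inlne _ _ fun e => hzR' (e ▸ hrb), ?_⟩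
          rw [mg_ll]
          constructor
          · intro h
            exact absurd (znb z' (Or.inr rfl) j b hb (fun h => hj h.1) h).1 hj
          · intro h; omega
        · refine ⟨inlne _ _ fun e => hj ((hpi.inj 0 j (a - 2) b (by omega) hb e).1).symm, ?_⟩
          rw [mg_ll, hoff 0 j (a - 2) b (by omega) hb (by omega) (fun h => hj h.1)]
          constructor
          · rintro (⟨h, _⟩ | ⟨_, h⟩)
            · exact absurd h.symm hj
            · omega
          · intro h; exact Or.inr ⟨hj.symm, by omega⟩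
      · rw [Nj i hi] at ha ⊢
        rw [Gj i a hi, mg_ll]
        refine ⟨inlne _ _ fun e => hij.ne (hpi.inj i j a b ha hb e).1, ?_⟩
        rw [hoff i j a b ha hb (fun h => hi h.1) (fun h => hj h.1)]
        constructor
        · rintro (⟨h, _⟩ | ⟨_, h⟩)
          · exact absurd h hij.ne
          · exact h
        · intro h; exact Or.inr ⟨hij.ne, h⟩
  -- the vertices of the new prism
  have hver : ∀ w ∈ vI N g', w = Sum.inr S ∨ ∃ v, w = Sum.inl v ∧ v ∉ S := by
    rintro w ⟨i, x, hx, rfl⟩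
    have RS : ∀ v ∈ R, v ∉ S := fun v hv => Set.disjoint_left.1 hS.dis hv
    by_cases hi : i = 0
    · subst hi
      rw [N0] at hx
      rw [G0]
      rcases hD3_cases S z z' (g 0) k x with ⟨ca, ea⟩ | ⟨ca, ea⟩ | ⟨ca, ea⟩ | ⟨ca, ea⟩ | ⟨ca, ea⟩ <;>
      rw [ea]
      · exact Or.inr ⟨_, rfl, RS _ (hR 0 x (by omega) (by omega))⟩
      · exact Or.inr ⟨_, rfl, hzS⟩
      · exact Or.inl rfl
      · exact Or.inr ⟨_, rfl, hzS'⟩
      · exact Or.inr ⟨_, rfl, RS _ (hR 0 (x - 2) (by omega) (by omega))⟩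
    · rw [Nj i hi] at hx
      rw [Gj i x hi]
      exact Or.inr ⟨_, rfl, RS _ (hR i x hx (fun h => hi h.1))⟩
  refine hP N g' hnew ⟨?_, ?_⟩ ?_
  · intro F _ r hr hrZ
    rcases hver _ hrZ with h | ⟨v, h, hv⟩
    · cases h
    · exact absurd (Sum.inl.inj h ▸ hr) hv
  · intro _ F hF F' hF'
    have key : ∀ F : Set V, Sum.inr F ∈ vI N g' → F = S := by
      intro F hF
      rcases hver _ hF with h | ⟨v, h, _⟩
      · exact Sum.inr.inj h
      · cases h
    rw [key F hF, key F' hF']
  · intro i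
    by_cases hi : i = 0
    · subst hi; rw [N0]
      obtain ⟨m, hm⟩ := hodd 0
      exact ⟨m + 1, by omega⟩
    · rw [Nj i hi]; exact hodd i

set_option linter.unusedVariables false in
theorem pf_D3 (hD0 : U_D0) (hGB : U_GB) (hPR : U_PR) : U_D3 := by
  intro V G R S p q n g k hNOP hE hS hP hp hq hpi hodd hk hkn hgkR hR
  obtain ⟨i, k', hk', hgk', hD⟩ := hD0 V G p q n g hNOP hpi hodd
  have hik : i = 0 ∧ k' = k := by
    by_contra h
    exact hp (hgk' ▸ hR i k' hk' h)
  obtain ⟨rfl, rfl⟩ := hik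
  have hpq := hE.1
  have Rne : ∀ v ∈ R, v ≠ p ∧ v ≠ q := fun v hv =>
    ⟨fun e => hp (e ▸ hv), fun e => hq (e ▸ hv)⟩
  have a1 : (ctr G p q).Adj p (g 0 (k' - 1)) := by
    have h := hpi.adj 0 0 k' (k' - 1) hk' (by omega)
    rw [hgk'] at h
    exact h.2 (Or.inl ⟨rfl, Or.inr (by omega)⟩)
  have a2 : (ctr G p q).Adj p (g 0 (k' + 1)) := by
    have h := hpi.adj 0 0 k' (k' + 1) hk' (by omega)
    rw [hgk'] at h
    exact h.2 (Or.inl ⟨rfl, Or.inl (by omega)⟩)
  have o1 := (ctr_left a1).2.2
  have o2 := (ctr_left a2).2.2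
  -- no z sees both
  have nb : ∀ z, z = p ∨ z = q → ¬ (G.Adj z (g 0 (k' - 1)) ∧ G.Adj z (g 0 (k' + 1))) := by
    rintro z hz ⟨h1, h2⟩
    obtain ⟨j, l, hl, hadj, hno⟩ := hD z hz
    have h := hpi.adj 0 j k' l hk' hl
    rw [hgk'] at h
    rcases h.1 hadj with ⟨rfl, h | h⟩ | ⟨_, h⟩
    · rw [← h] at hno; exact hno h2
    · have e : l = k' - 1 := by omega
      rw [e] at hno; exact hno h1
    · omega
  have np := nb p (Or.inl rfl)
  have nq := nb q (Or.inr rfl)
  rcases o1 with h1 | h1
  · rcases o2 with h2 | h2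
    · exact np ⟨h1, h2⟩
    · exact d3_core hE hS hP (Or.inl ⟨rfl, rfl⟩) hp hq hpi hodd hk hkn hgk' hR h1 h2
        (fun e => np ⟨h1, e⟩) (fun e => nq ⟨e, h2⟩)
  · rcases o2 with h2 | h2
    · exact d3_core hE hS hP (Or.inr ⟨rfl, rfl⟩) hp hq hpi hodd hk hkn hgk' hR h1 h2
        (fun e => nq ⟨h1, e⟩) (fun e => np ⟨e, h2⟩)
    · exact nq ⟨h1, h2⟩

end Pool.Agent.H59.ER3
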