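import Pool.Agent.H20.ER3.Lib

/-!
# MP_816b90_co: row DE of the board er3
-/

set_option autoImplicit false

namespace Pool.Agent.H59.ER3

open Pool.Agent.H48.ER Pool.Agent.H52.ER2 Pool.Agent.H66.ER2 Pool.Agent.H20.ER3

/-- the neighbours of the contracted vertex -/
theorem ctr_left {V : Type} {G : SimpleGraph V} {p q u : V} (h : (ctr G p q).Adj p u) :
    u ≠ p ∧ u ≠ q ∧ (G.Adj p u ∨ G.Adj q u) := by
  obtain ⟨h1, h2, h3, h4⟩ := h
  refine ⟨h1.symm, h3, ?_⟩
  rcases h4 with h | ⟨_, h⟩ | ⟨h, _⟩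
  · exact Or.inl h
  · exact Or.inr h
  · exact absurd h h1.symm

/-- a path with three edges -/
theorem no_p3 {V : Type} {G : SimpleGraph V} {p q u u' : V} (h : EvP G p q) (hu : G.Adj p u)
    (hu' : G.Adj q u') (huu : G.Adj u u') (n1 : ¬ G.Adj p u') (n2 : ¬ G.Adj q u) : False := by
  obtain ⟨hpq, hna, hev⟩ := h
  have e1 : IP G 1 u u' {u, u'} := IP.edge huu
  have hp : p ∉ ({u, u'} : Set V) := by
    rintro (e | e)
    · exact hu.ne e
    · rw [← e] at hu'; exact hna hu'.symm
  have e2 : IP G 2 p u' (insert p {u, u'}) := by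
    refine e1.cons hp ?_
    rintro w (rfl | rfl)
    · exact ⟨fun _ => rfl, fun _ => hu⟩
    · exact ⟨fun e => absurd e n1, fun e => absurd (e ▸ huu) (G.loopless.irrefl _)⟩
  have hq : q ∉ (insert p {u, u'} : Set V) := by
    rintro (e | e | e)
    · exact hpq e.symm
    · rw [← e] at hu; exact hna hu
    · exact hu'.ne e
  have e3 : IP G 3 p q (insert q (insert p {u, u'})) := by
    refine e2.snoc hq ?_
    rintro w (rfl | rfl | rfl)
    · exact ⟨fun e => absurd e.symm hna, fun e => absurd (e ▸ hu') (fun e => hna e.symm |>.elim)⟩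
    · exact ⟨fun e => absurd e n2, fun e => absurd (e ▸ huu) (G.loopless.irrefl _)⟩
    · exact ⟨fun _ => rfl, fun _ => hu'⟩
  have := hev 3 _ e3
  exact absurd this (by decide)

theorem pf_DE : U_DE := by
  intro V G p q u u' hE h h' huu
  obtain ⟨_, _, h1⟩ := ctr_left h
  obtain ⟨_, _, h2⟩ := ctr_left h'
  by_contra hno
  push Not at hno
  have np := hno p (Or.inl rfl)
  have nq := hno q (Or.inr rfl)
  rcases h1 with a | a
  · rcases h2 with b | b
    · exact np a b
    · exact no_p3 hE a b huu (np a) (fun e => nq e b)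
  · rcases h2 with b | b
    · exact no_p3 hE b a huu.symm (fun e => np e b) (nq a)
    · exact nq a b

end Pool.Agent.H59.ER3
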